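import Pool.Agent.H71.HV.Targets2

set_option autoImplicit false

open Set Filter

namespace Pool.Agent.H46.HV

open Pool.Agent.H71.HV

/-- terms -/
inductive Tm (α : Type) : Type
  | var : α → Tm α
  | op : ℕ → Tm α → Tm α → Tm α
  deriving Countable

namespace Tm

def map {α β : Type} (f : α → β) : Tm α → Tm β
  | var a => var (f a)
  | op i s t => op i (map f s) (map f t)

def eval {α Ω : Type} (o : ℕ → Ω → Ω → Ω) (g : α → Ω) : Tm α → Ω
  | var a => g a
  | op i s t => o i (eval o g s) (eval o g t)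

theorem map_map {α β γ : Type} (f : α → β) (g : β → γ) (t : Tm α) :
    map g (map f t) = map (g ∘ f) t := by
  induction t with
  | var a => rfl
  | op i s t hs ht => simp only [map, hs, ht]

theorem map_id' {α : Type} (f : α → α) (hf : ∀ a, f a = a) (t : Tm α) : map f t = t := by
  induction t with
  | var a => simp only [map, hf]
  | op i s t hs ht => simp only [map, hs, ht]

theorem eval_map {α β Ω : Type} (o : ℕ → Ω → Ω → Ω) (f : α → β) (g : β → Ω) (t : Tm α) :
    eval o g (map f t) = eval o (g ∘ f) t := by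
  induction t with
  | var a => rfl
  | op i s t hs ht => simp only [map, eval, hs, ht]

def vars : Tm ℚ → Finset ℚ
  | var a => {a}
  | op _ s t => vars s ∪ vars t

theorem map_congr' {β : Type} (f g : ℚ → β) (t : Tm ℚ) (h : ∀ q ∈ vars t, f q = g q) :
    map f t = map g t := by
  induction t with
  | var a => simp only [map]; rw [h a (by simp [vars])]
  | op i s t hs ht =>
    simp only [map]
    rw [hs fun q hq => h q (by simp [vars, hq]), ht fun q hq => h q (by simp [vars, hq])]

theorem exists_normal (F : Finset ℚ) (t : Tm ℚ) (h : vars t ⊆ F) :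
    ∃ t0 : Tm (Fin F.card), t = map (F.orderEmbOfFin rfl) t0 := by
  induction t with
  | var a =>
    have ha : a ∈ Set.range (F.orderEmbOfFin rfl) := by
      rw [Finset.range_orderEmbOfFin]
      exact h (by simp [vars])
    obtain ⟨j, hj⟩ := ha
    exact ⟨var j, by simp only [map]; rw [hj]⟩
  | op i s t hs ht =>
    obtain ⟨s0, hs0⟩ := hs fun q hq => h (by simp [vars, hq])
    obtain ⟨t0, ht0⟩ := ht fun q hq => h (by simp [vars, hq])
    exact ⟨op i s0 t0, by simp only [map]; rw [← hs0, ← ht0]⟩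

end Tm

/-- statements -/
abbrev St : Type := Σ n : ℕ, Option ℕ × Tm (Fin n) × Tm (Fin n)

instance : Nonempty St := ⟨⟨1, none, Tm.var 0, Tm.var 0⟩⟩

/-- value of a statement on two elements -/
noncomputable def cv {Ω : Type} (col : ℕ → Ω → Ω → ℕ) (k : Option ℕ) (x y : Ω) : ℕ := by
  classical
  exact match k with
    | none => if x = y then 1 else 0
    | some i => col i x y

/-- colouring given by a statement -/
noncomputable def C {κ Ω : Type} (e : κ → Ω) (o : ℕ → Ω → Ω → Ω) (col : ℕ → Ω → Ω → ℕ) (s : St)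
    (t : Fin s.1 → κ) : ℕ :=
  cv col s.2.1 (Tm.eval o (e ∘ t) s.2.2.1) (Tm.eval o (e ∘ t) s.2.2.2)

theorem exists_xi {κ : Type} [LinearOrder κ] (X : Set κ) (hX : X.Infinite) (F : Finset ℚ) :
    ∃ ξ : ℚ → κ, (∀ q, ξ q ∈ X) ∧ ∀ q ∈ F, ∀ r ∈ F, q < r → ξ q < ξ r := by
  classical
  obtain ⟨x0, hx0⟩ := hX.nonempty
  obtain ⟨S, hS, hcard⟩ := hX.exists_subset_card_eq F.card
  refine ⟨fun q => if h : q ∈ F then S.orderEmbOfFin hcard ((F.orderIsoOfFin rfl).symm ⟨q, h⟩)
    else x0, ?_, ?_⟩
  · intro q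
    by_cases h : q ∈ F
    · simp only [h, dif_pos]
      exact hS (Finset.orderEmbOfFin_mem S hcard _)
    · simp only [h]
      exact hx0
  · intro q hq r hr hqr
    simp only [hq, hr, dif_pos]
    rw [OrderEmbedding.lt_iff_lt, OrderIso.lt_iff_lt]
    exact hqr

theorem em (h : HomStmt) : EMStmt := by
  intro κ Ω _ _ hκ e o col
  classical
  obtain ⟨f, hf⟩ := exists_surjective_nat St
  obtain ⟨v, hv⟩ := h κ hκ (fun i => (f i).1) (fun i => C e o col (f i))
  choose X hXinf hX using hv
  have hx : ∀ d : ℕ × Finset ℚ, ∃ ξ : ℚ → κ, (∀ q, ξ q ∈ X d.1) ∧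
      ∀ q ∈ d.2, ∀ r ∈ d.2, q < r → ξ q < ξ r := fun d => exists_xi (X d.1) (hXinf d.1) d.2
  choose ξ hξX hξlt using hx
  set U : Ultrafilter (ℕ × Finset ℚ) := Ultrafilter.of atTop with hU
  have hUle : (U : Filter (ℕ × Finset ℚ)) ≤ atTop := Ultrafilter.of_le atTop
  have hge : ∀ d₀ : ℕ × Finset ℚ, ∀ᶠ d in (U : Filter (ℕ × Finset ℚ)), d₀ ≤ d :=
    fun d₀ => hUle (eventually_ge_atTop d₀)
  -- evaluation
  let ev0 : ℕ × Finset ℚ → Tm ℚ → Ω := fun d t => Tm.eval o (e ∘ ξ d) t
  have key : ∀ (k : Option ℕ) (t s : Tm ℚ), ∃ N : ℕ, ∀ σ : Gam,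
      ∀ᶠ d in (U : Filter (ℕ × Finset ℚ)),
        cv col k (ev0 d (Tm.map σ t)) (ev0 d (Tm.map σ s)) = N := by
    intro k t s
    set F : Finset ℚ := t.vars ∪ s.vars with hF
    obtain ⟨t0, ht0⟩ := Tm.exists_normal F t Finset.subset_union_left
    obtain ⟨s0, hs0⟩ := Tm.exists_normal F s Finset.subset_union_right
    obtain ⟨j, hj⟩ := hf ⟨F.card, k, t0, s0⟩
    have H' : ∀ st, f j = st → ∀ m, j < m → ∀ tb : Fin st.1 → κ, StrictMono tb →
        (∀ i, tb i ∈ X m) → C e o col st tb = v j := by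
      rintro _ rfl m hm tb h1 h2
      exact hX m j hm tb h1 h2
    refine ⟨v j, fun σ => ?_⟩
    filter_upwards [hge (j + 1, F.image σ)] with d hd
    have hd1 : j < d.1 := hd.1
    have hd2 : F.image σ ⊆ d.2 := hd.2
    have hmono : StrictMono (ξ d ∘ (σ ∘ F.orderEmbOfFin rfl)) := by
      intro a b hab
      apply hξlt d
      · exact hd2 (Finset.mem_image_of_mem _ (Finset.orderEmbOfFin_mem F rfl a))
      · exact hd2 (Finset.mem_image_of_mem _ (Finset.orderEmbOfFin_mem F rfl b))
      · exact σ.strictMono ((F.orderEmbOfFin rfl).strictMono hab)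
    have := H' _ hj d.1 hd1 (ξ d ∘ (σ ∘ F.orderEmbOfFin rfl)) hmono (fun i => hξX d _)
    simp only [C] at this
    have e1 : ∀ u u0 : _, u = Tm.map (F.orderEmbOfFin rfl) u0 → ev0 d (Tm.map σ u) =
        Tm.eval o (e ∘ (ξ d ∘ (σ ∘ F.orderEmbOfFin rfl))) u0 := by
      rintro _ u0 rfl
      show Tm.eval o (e ∘ ξ d) _ = _
      rw [Tm.map_map, Tm.eval_map]
      rfl
    rw [e1 t t0 ht0, e1 s s0 hs0]
    exact this
  -- the setoid
  let S : Setoid (Tm ℚ) :=
    { r := fun t s => ∀ᶠ d in (U : Filter (ℕ × Finset ℚ)), ev0 d t = ev0 d s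
      iseqv := ⟨fun t => Eventually.of_forall fun d => rfl,
        fun h => h.mono fun d hd => hd.symm,
        fun h h' => (h.and h').mono fun d hd => hd.1.trans hd.2⟩ }
  have hS : ∀ t s, S t s ↔ ∀ᶠ d in (U : Filter (ℕ × Finset ℚ)), ev0 d t = ev0 d s :=
    fun t s => Iff.rfl
  have hout : ∀ t : Tm ℚ, ∀ᶠ d in (U : Filter (ℕ × Finset ℚ)),
      ev0 d (Quotient.out (Quotient.mk S t)) = ev0 d t :=
    fun t => (hS _ _).1 (Quotient.mk_out (s := S) t)
  have hid : ∀ t : Tm ℚ, Tm.map (1 : Gam) t = t := fun t => Tm.map_id' _ (fun _ => rfl) t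
  have hmapS : ∀ (σ : Gam) (t s : Tm ℚ), S t s → S (Tm.map σ t) (Tm.map σ s) := by
    intro σ t s hts
    obtain ⟨N, hN⟩ := key none t s
    have h1 := hN 1
    rw [hid, hid] at h1
    have h2 : N = 1 := by
      obtain ⟨d, hd⟩ := (h1.and ((hS t s).1 hts)).exists
      rw [← hd.1]
      simp only [cv, hd.2, if_true]
    rw [hS]
    filter_upwards [hN σ] with d hd
    by_contra hcon
    rw [h2] at hd
    simp only [cv, hcon, if_false] at hd
    exact absurd hd (by norm_num)
  have hopS : ∀ (i : ℕ) (t s t' s' : Tm ℚ), S t t' → S s s' → S (Tm.op i t s) (Tm.op i t' s') := by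
    intro i t s t' s' h1 h2
    rw [hS] at h1 h2 ⊢
    filter_upwards [h1, h2] with d h3 h4
    show o i (ev0 d t) (ev0 d s) = o i (ev0 d t') (ev0 d s')
    rw [h3, h4]
  have hcol : ∀ (i : ℕ) (x y : Quotient S), ∃ N : ℕ, ∀ᶠ d in (U : Filter (ℕ × Finset ℚ)),
      col i (ev0 d x.out) (ev0 d y.out) = N := by
    intro i x y
    obtain ⟨N, hN⟩ := key (some i) x.out y.out
    refine ⟨N, ?_⟩
    have h1 := hN 1
    rw [hid, hid] at h1
    exact h1
  choose col' hcol' using hcol
  let act : Gam → Quotient S → Quotient S := fun σ => Quotient.map (Tm.map σ) (hmapS σ)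
  have hact : ∀ σ t, act σ (Quotient.mk S t) = Quotient.mk S (Tm.map σ t) := fun σ t => rfl
  refine ⟨{
    Ω' := Quotient S
    ctbl := inferInstance
    D := ℕ × Finset ℚ
    U := U
    ev := fun d x => ev0 d x.out
    op' := fun i => Quotient.map₂ (Tm.op i) (fun t t' h1 s s' h2 => hopS i t s t' s' h1 h2)
    col' := col'
    e' := fun q => Quotient.mk S (Tm.var q)
    ξ := ξ
    ev_op := ?_
    ev_col := hcol'
    ev_inj := ?_
    ev_e := ?_
    ξ_lt := ?_
    act := act
    act_one := ?_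
    act_mul := ?_
    act_op := ?_
    act_col := ?_
    act_e := fun σ q => rfl
    supp := ?_ }⟩
  · intro i x y
    have h1 : Quotient.map₂ (Tm.op i) (fun t t' h1 s s' h2 => hopS i t s t' s' h1 h2) x y =
        Quotient.mk S (Tm.op i x.out y.out) := by
      conv_lhs => rw [← Quotient.out_eq x, ← Quotient.out_eq y]
      rfl
    rw [h1]
    exact hout _
  · intro x y hxy
    have h1 : ¬ S x.out y.out := by
      intro h2
      apply hxy
      rw [← Quotient.out_eq x, ← Quotient.out_eq y]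
      exact Quotient.sound h2
    rw [hS] at h1
    exact Ultrafilter.eventually_not.2 h1
  · intro q
    exact hout _
  · intro q r hqr
    filter_upwards [hge (0, {q, r})] with d hd
    have hd2 : ({q, r} : Finset ℚ) ⊆ d.2 := hd.2
    exact hξlt d q (hd2 (by simp)) r (hd2 (by simp)) hqr
  · intro x
    induction x using Quotient.inductionOn with
    | h t => rw [hact, hid]
  · intro σ τ x
    induction x using Quotient.inductionOn with
    | h t =>
      rw [hact, hact, hact, Tm.map_map]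
      rfl
  · intro σ i x y
    induction x using Quotient.inductionOn with
    | h t =>
      induction y using Quotient.inductionOn with
      | h s => rfl
  · intro σ i x y
    obtain ⟨N, hN⟩ := key (some i) x.out y.out
    have h1 := hN 1
    rw [hid, hid] at h1
    have h2 := hN σ
    have h3 : ∀ z : Quotient S, ∀ᶠ d in (U : Filter (ℕ × Finset ℚ)),
        ev0 d (act σ z).out = ev0 d (Tm.map σ z.out) := by
      intro z
      have : act σ z = Quotient.mk S (Tm.map σ z.out) := by
        conv_lhs => rw [← Quotient.out_eq z]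
        rfl
      rw [this]
      exact hout _
    obtain ⟨d, hd⟩ := (((h1.and h2).and ((h3 x).and (h3 y))).and
      ((hcol' i (act σ x) (act σ y)).and (hcol' i x y))).exists
    obtain ⟨⟨⟨g1, g2⟩, g3, g4⟩, g5, g6⟩ := hd
    simp only [cv] at g1 g2
    rw [← g5, g3, g4, g2, ← g6, g1]
  · intro x
    induction x using Quotient.inductionOn with
    | h t =>
      refine ⟨t.vars, fun σ τ hst => ?_⟩
      rw [hact, hact, Tm.map_congr' σ τ t hst]

/-- EM -/
theorem EM : EMAsmStmt := em

end Pool.Agent.H46.HV
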