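import Pool.Agent.H97.HV.Targets

/-!
# Row DEC of the board hov: an atom is not split by a set in HOD(V_ γ) (helper46)
-/

open Ordinal Cardinal Order Set
open scoped ZFSet

universe u

set_option autoImplicit false

namespace Pool.Agent.H46.HV

open _root_.HD HD.PRK HD.HV

theorem odp_cap {a x : ZFSet.{u}} (β : Ordinal.{u}) (h : NF.ODp a x) :
    NF.ODp a (ZFSet.sep (fun z => z ∈ x) β.toZFSet) := by
  obtain ⟨Q, hQ, h⟩ := Pool.Agent.H45.NF.ODp.def h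
  refine Pool.Agent.H45.NF.ODp.of_dz
    (Q := fun v => ∃ X, Q (cons X fun _ => v 1) ∧ ∀ z, z ∈ v 0 ↔ (z ∈ β.toZFSet ∧ z ∈ X))
    ?_ fun y => ?_
  · refine DZ.ex (R := fun X v => Q (cons X fun _ => v 1) ∧
      ∀ z, z ∈ v 0 ↔ (z ∈ β.toZFSet ∧ z ∈ X)) (DZ.and ?_ ?_)
    · refine (hQ.ren fun n => if n = 0 then 0 else 2).congr fun v => ?_
      have : (cons (v 0) fun _ => v 2) = fun n => v (if n = 0 then 0 else 2) := by
        funext n
        rcases n with _ | n <;> simp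
      rw [← this]
    · refine DZ.all (R := fun z v => z ∈ v 1 ↔ (z ∈ β.toZFSet ∧ z ∈ v 0)) ?_
      refine (DZ.mem 0 2).iff (DZ.and ?_ (DZ.mem 0 1))
      exact DZ.od (R := fun b v => v 0 ∈ b) (OD.ordinal β) (DZ.mem 1 0)
  · show (∃ X, Q (cons X fun _ => a) ∧ ∀ z, z ∈ y ↔ (z ∈ β.toZFSet ∧ z ∈ X)) ↔ _
    constructor
    · rintro ⟨X, hX, hy⟩
      have hX' := (h X).1 hX
      subst hX'
      ext z
      rw [hy z, ZFSet.mem_sep]
    · rintro rfl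
      exact ⟨x, (h x).2 rfl, fun z => ZFSet.mem_sep⟩

theorem pf_DEC (h1 : T_UNI.{u}) (h2 : T_ETR.{u}) : T_DEC.{u} := by
  intro en hen M K hK hu c hc γ hf x hx
  obtain ⟨a, ha, hax⟩ := hx
  have hl : succ a.rank < γ := hf.lim.succ_lt (ZFSet.mem_vonNeumann.1 ha)
  have hal : a ∈ V_ (succ a.rank) := ZFSet.mem_vonNeumann.2 (lt_succ _)
  obtain ⟨R, hR, -, hRx⟩ := h1.1 (succ a.rank) K.ord.toZFSet a
    (ZFSet.sep (fun z => z ∈ x) K.ord.toZFSet) (OD.ordinal _) hal (odp_cap _ hax)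
    (fun z hz => (ZFSet.mem_sep.1 hz).1)
  obtain ⟨C, hC, hCa⟩ := h2 en hen M K hK hu c hc (succ a.rank)
    (hf.few _ (hf.lim.succ_lt hl)) R hR
  rintro ⟨p1, p2⟩
  rcases hCa a hal with h | h
  · obtain ⟨b, hbK, hbC, hbE, hcf⟩ := p2 C hC
    have h3 := (hRx b.toZFSet).1 (h b hbC hbK hbE.1 hcf)
    exact hbE.2 (ZFSet.mem_sep.1 h3).2
  · obtain ⟨b, hbK, hbC, hbE, hcf⟩ := p1 C hC
    refine h b hbC hbK hbE.1 hcf ((hRx b.toZFSet).2 (ZFSet.mem_sep.2 ⟨?_, hbE.2⟩))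
    exact toZFSet_mem_toZFSet_iff.2 hbK

end Pool.Agent.H46.HV
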